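import Pool.Agent.H37.CNU.Stmts

/-!
# Row UNF of the board `cnu`: the elements fixing the place
-/

set_option autoImplicit false

namespace Pool.CND

open Finset Matrix

section

variable {p : ℕ} {k F L : Type} [Field k] [Field F] [Field L] [Algebra F k] [Algebra k L]
  {f q : ℕ} {σ : F →+* F} {t : L} {X : Fin 3 → L} {ρ : SU3 σ →* (L ≃ₐ[k] L)} {P : Place k L}

/-- the order of a nonzero constant -/
theorem unf_cst (P : Place k L) {a : F} (ha : a ≠ 0) :
    cst k F L a ≠ 0 ∧ P.ord (cst k F L a) = 0 := by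
  have h1 : algebraMap F k a ≠ 0 := (map_ne_zero_iff _ (algebraMap F k).injective).2 ha
  exact ⟨(map_ne_zero_iff _ (algebraMap k L).injective).2 h1, P.ord_const _ h1⟩

/-- a constant multiple -/
theorem unf_ge (P : Place k L) (a : F) (z : L) : P.Ge (cst k F L a * z) (P.ord z) := by
  have h5 : P.Ge (cst k F L a * z) (0 + P.ord z) := P.ge_mul (P.ge_const _) (P.ge_ord z)
  rwa [zero_add] at h5

/-- adding terms of larger order to `a z`, `a ≠ 0` -/
theorem unf_add (P : Place k L) {a : F} (ha : a ≠ 0) {z w : L} (hz : z ≠ 0)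
    (hw : P.Ge w (P.ord z + 1)) :
    cst k F L a * z + w ≠ 0 ∧ P.ord (cst k F L a * z + w) = P.ord z := by
  obtain ⟨h1, h2⟩ := unf_cst (L := L) P ha
  have h3 : P.ord (cst k F L a * z) = P.ord z := by rw [P.ord_mul _ _ h1 hz, h2, zero_add]
  have h6 := P.ord_add_of_lt (mul_ne_zero h1 hz) (by rw [h3]; exact hw)
  exact ⟨h6.1, h6.2.trans h3⟩

/-- the orders of `y ^ i u ^ j` are distinct modulo `q e` -/
theorem unf_distinct {q e : ℕ} (hq : 2 ≤ q) (he : e + q = q ^ 2 + 1) (a b : Fin q × Fin e)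
    (hab : a ≠ b) :
    ¬ ((q * e : ℕ) : ℤ) ∣ (a.1 : ℕ) * (-(((q + 1) * e : ℕ) : ℤ)) + (a.2 : ℕ) * (-((q ^ 3 : ℕ) : ℤ)) -
      ((b.1 : ℕ) * (-(((q + 1) * e : ℕ) : ℤ)) + (b.2 : ℕ) * (-((q ^ 3 : ℕ) : ℤ))) := by
  intro hd
  have heZ : (e : ℤ) + q = q ^ 2 + 1 := by exact_mod_cast he
  have c1 : IsCoprime (q : ℤ) (e : ℤ) := ⟨1 - q, 1, by linear_combination heZ⟩
  have he0 : (e : ℤ) ≠ 0 := by
    intro h0
    rw [h0] at heZ
    have h2 : (2 : ℤ) ≤ q := by exact_mod_cast hq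
    nlinarith
  obtain ⟨⟨i, hi⟩, ⟨j, hj⟩⟩ := a
  obtain ⟨⟨i', hi'⟩, ⟨j', hj'⟩⟩ := b
  simp only at hd
  have e1 : (i : ℤ) * (-(((q + 1) * e : ℕ) : ℤ)) + (j : ℤ) * (-((q ^ 3 : ℕ) : ℤ)) -
      ((i' : ℤ) * (-(((q + 1) * e : ℕ) : ℤ)) + (j' : ℤ) * (-((q ^ 3 : ℕ) : ℤ))) =
      (e : ℤ) * (((q : ℤ) + 1) * (i' - i)) + (q : ℤ) ^ 3 * (j' - j) := by
    push_cast
    ring
  rw [e1, Nat.cast_mul] at hd
  have hed : (e : ℤ) ∣ (q : ℤ) ^ 3 * (j' - j) :=
    (dvd_add_right (Dvd.intro _ rfl)).1 ((Dvd.intro_left (q : ℤ) rfl).trans hd)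
  have hj2 : (e : ℤ) ∣ (j' - j : ℤ) := (c1.symm.pow_right (n := 3)).dvd_of_dvd_mul_left hed
  have hjj : j' = j := by
    have h1 : |(j' - j : ℤ)| < e := by rw [abs_lt]; constructor <;> omega
    have h2 := Int.eq_zero_of_abs_lt_dvd hj2 h1
    omega
  subst hjj
  rw [sub_self, mul_zero, add_zero] at hd
  have hi1 : (q : ℤ) ∣ ((q : ℤ) + 1) * (i' - i) := by
    rw [mul_comm (q : ℤ)] at hd
    exact (mul_dvd_mul_iff_left he0).1 hd
  have c2 : IsCoprime (q : ℤ) ((q : ℤ) + 1) := ⟨-1, 1, by ring⟩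
  have hi2 : (q : ℤ) ∣ (i' - i : ℤ) := c2.dvd_of_dvd_mul_left hi1
  have hii : i' = i := by
    have h1 : |(i' - i : ℤ)| < q := by rw [abs_lt]; constructor <;> omega
    have h2 := Int.eq_zero_of_abs_lt_dvd hi2 h1
    omega
  subst hii
  exact hab rfl

end

theorem unf_thm (hVEC : S_VEC) (hUNX : S_UNX) (hUNB : S_UNB) : S_UNF := by
  intro p k F L _ _ _ _ _ f q σ t X ρ P hp hch hf hq hF hσ H g
  have hq2 : 2 ≤ q := by
    rw [hq]
    calc 2 ≤ p := hp.two_le
      _ = p ^ 1 := (pow_one p).symm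
      _ ≤ p ^ f := Nat.pow_le_pow_right hp.pos hf
  obtain ⟨ht0, hX0, hX1, hX2⟩ := H.ne
  have o0 := H.ord_0
  have o1 := H.ord_1
  have o2 := H.ord_2
  have hqq : q ≤ q ^ 2 := by nlinarith
  have hq3 : q ^ 2 < q ^ 3 := by
    have : q ^ 3 = q ^ 2 * q := by ring
    have h4 : 0 < q ^ 2 := Nat.pow_pos (by omega)
    nlinarith
  have a0 : ρ g (X 0) = cst k F L (g.1.1 0 0) * X 0 + cst k F L (g.1.1 1 0) * X 1 +
      cst k F L (g.1.1 2 0) * X 2 := by rw [H.act_X, Fin.sum_univ_three]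
  have a1 : ρ g (X 1) = cst k F L (g.1.1 0 1) * X 0 + cst k F L (g.1.1 1 1) * X 1 +
      cst k F L (g.1.1 2 1) * X 2 := by rw [H.act_X, Fin.sum_univ_three]
  have a2 : ρ g (X 2) = cst k F L (g.1.1 0 2) * X 0 + cst k F L (g.1.1 1 2) * X 1 +
      cst k F L (g.1.1 2 2) * X 2 := by rw [H.act_X, Fin.sum_univ_three]
  have g0 : ∀ a : F, P.Ge (cst k F L a * X 0) ((q ^ 3 : ℕ) : ℤ) := fun a => by
    have := unf_ge P a (X 0)
    rwa [o0] at this
  have g1 : ∀ a : F, P.Ge (cst k F L a * X 1) ((q ^ 2 - q : ℕ) : ℤ) := fun a => by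
    have := unf_ge P a (X 1)
    rwa [o1] at this
  constructor
  · intro hfix
    have h1 := hfix (X 0) hX0
    have h20 : g.1.1 2 0 = 0 := by
      by_contra h20
      rw [a0, add_comm, (unf_add P h20 hX2 (by
        rw [o2]
        refine P.ge_add (P.ge_mono (g0 _) ?_) (P.ge_mono (g1 _) ?_) <;> omega)).2, o2, o0] at h1
      omega
    refine ⟨?_, h20⟩
    by_contra h10
    rw [a0, h20, show cst k F L 0 = 0 by simp [cst], zero_mul, add_zero, add_comm,
      (unf_add P h10 hX1 (by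
        rw [o1]
        refine P.ge_mono (g0 _) ?_
        omega)).2, o1, o0] at h1
    omega
  · rintro ⟨h10, h20⟩ z hz
    obtain ⟨h21, h00, h11', h22', -⟩ := (hUNB p F f q σ hp hf hq hF hσ).1 g h10 h20
    have h11 : g.1.1 1 1 ≠ 0 := by
      intro h
      rw [h, zero_mul] at h11'
      exact pow_ne_zero q h00 h11'.symm
    have h22 : g.1.1 2 2 ≠ 0 := by
      intro h
      rw [h, zero_mul] at h22'
      exact zero_ne_one h22'
    have c0 : cst k F L 0 = 0 := by simp [cst]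
    rw [h10, h20, c0, zero_mul, zero_mul, add_zero, add_zero] at a0
    rw [h21, c0, zero_mul, add_zero] at a1
    obtain ⟨n00, -⟩ := unf_cst (L := L) P h00
    obtain ⟨n11, -⟩ := unf_cst (L := L) P h11
    obtain ⟨n22, -⟩ := unf_cst (L := L) P h22
    -- the number e
    obtain ⟨e, he⟩ : ∃ e : ℕ, e = q ^ 2 - q + 1 := ⟨_, rfl⟩
    have heq : e + q = q ^ 2 + 1 := by omega
    have heZ : (e : ℤ) + q = q ^ 2 + 1 := by exact_mod_cast heq
    have he1 : 1 ≤ e := by omega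
    -- x, y, u
    have ux : P.ord (X 1 / X 0) = -((q * e : ℕ) : ℤ) := by
      rw [P.ord_div hX1 hX0, o1, o0, Nat.cast_sub hqq]
      push_cast
      linear_combination (q : ℤ) * heZ
    have nx : X 1 / X 0 ≠ 0 := div_ne_zero hX1 hX0
    have uy : P.ord (X 2 / X 0) = -(((q + 1) * e : ℕ) : ℤ) := by
      rw [P.ord_div hX2 hX0, o2, o0]
      push_cast
      linear_combination ((q : ℤ) + 1) * heZ
    have ny : X 2 / X 0 ≠ 0 := div_ne_zero hX2 hX0
    have uu : P.ord (1 / X 0) = -((q ^ 3 : ℕ) : ℤ) := by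
      rw [P.ord_div one_ne_zero hX0, P.ord_one, o0, zero_sub]
    have nu : (1 : L) / X 0 ≠ 0 := div_ne_zero one_ne_zero hX0
    obtain ⟨x, hx⟩ : ∃ x : L, x = X 1 / X 0 := ⟨_, rfl⟩
    obtain ⟨y, hy⟩ : ∃ y : L, y = X 2 / X 0 := ⟨_, rfl⟩
    obtain ⟨u, hu⟩ : ∃ u : L, u = 1 / X 0 := ⟨_, rfl⟩
    have hspan := H.span z
    rw [← he, ← hx, ← hy, ← hu] at hspan
    rw [← hx] at ux nx
    rw [← hy] at uy ny
    rw [← hu] at uu nu
    -- the images of x, y, u
    have na : algebraMap F k (g.1.1 1 1 / g.1.1 0 0) ≠ 0 :=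
      (map_ne_zero_iff _ (algebraMap F k).injective).2 (div_ne_zero h11 h00)
    have ax : ρ g x = algebraMap k L (algebraMap F k (g.1.1 1 1 / g.1.1 0 0)) * x +
        algebraMap k L (algebraMap F k (g.1.1 0 1 / g.1.1 0 0)) := by
      rw [hx, map_div₀, a1, a0, map_div₀, map_div₀, map_div₀, map_div₀]
      simp only [cst] at n00 ⊢
      field_simp
      ring
    have ay : ρ g y = cst k F L (g.1.1 2 2 / g.1.1 0 0) * y +
        (cst k F L (g.1.1 1 2 / g.1.1 0 0) * x + cst k F L (g.1.1 0 2 / g.1.1 0 0)) := by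
      rw [hy, hx, map_div₀, a2, a0]
      simp only [cst, map_div₀] at n00 ⊢
      field_simp
      ring
    have au : ρ g u = cst k F L (1 / g.1.1 0 0) * u := by
      rw [hu, map_div₀, map_one, a0]
      simp only [cst, map_div₀, map_one] at n00 ⊢
      field_simp
    have oy := unf_add P (div_ne_zero h22 h00) ny (w := cst k F L (g.1.1 1 2 / g.1.1 0 0) * x +
      cst k F L (g.1.1 0 2 / g.1.1 0 0)) (by
        rw [uy]
        refine P.ge_add (P.ge_mono (unf_ge P _ x) ?_) (P.ge_mono (P.ge_const _) ?_)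
        · rw [ux]
          push_cast
          nlinarith
        · push_cast
          nlinarith)
    rw [← ay] at oy
    have ou := unf_add P (div_ne_zero one_ne_zero h00) nu (w := 0) (Or.inl rfl)
    rw [add_zero, ← au] at ou
    have hqe : 1 ≤ q * e := Nat.mul_pos (by omega) he1
    obtain ⟨c, hc, hzc⟩ := hspan
    let C : Fin q × Fin e → L := fun a => c a.1 a.2
    let C' : Fin q × Fin e → L := fun a => ρ g (c a.1 a.2)
    let E : Fin q × Fin e → L := fun a => y ^ (a.1 : ℕ) * u ^ (a.2 : ℕ)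
    let E' : Fin q × Fin e → L := fun a => (ρ g y) ^ (a.1 : ℕ) * (ρ g u) ^ (a.2 : ℕ)
    have hz1 : z = ∑ a, C a * E a := by
      rw [hzc, Fintype.sum_prod_type]
      refine sum_congr rfl fun i _ => sum_congr rfl fun j _ => ?_
      simp only [C, E]
      ring
    have hz2 : ρ g z = ∑ a, C' a * E' a := by
      rw [hz1, map_sum]
      refine sum_congr rfl fun a _ => ?_
      simp only [C, C', E, E', map_mul, map_pow]
    have hE : ∀ a, E a ≠ 0 := fun a => mul_ne_zero (pow_ne_zero _ ny) (pow_ne_zero _ nu)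
    have hE' : ∀ a, E' a ≠ 0 := fun a => mul_ne_zero (pow_ne_zero _ oy.1) (pow_ne_zero _ ou.1)
    have oE : ∀ a, P.ord (E a) = (a.1 : ℕ) * (-(((q + 1) * e : ℕ) : ℤ)) +
        (a.2 : ℕ) * (-((q ^ 3 : ℕ) : ℤ)) := fun a => by
      simp only [E]
      rw [P.ord_mul _ _ (pow_ne_zero _ ny) (pow_ne_zero _ nu), P.ord_pow ny, P.ord_pow nu, uy, uu]
    have oE' : ∀ a, P.ord (E' a) = (a.1 : ℕ) * (-(((q + 1) * e : ℕ) : ℤ)) +
        (a.2 : ℕ) * (-((q ^ 3 : ℕ) : ℤ)) := fun a => by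
      simp only [E']
      rw [P.ord_mul _ _ (pow_ne_zero _ oy.1) (pow_ne_zero _ ou.1), P.ord_pow oy.1, P.ord_pow ou.1,
        oy.2, ou.2, uy, uu]
    have hXx := hUNX k L P x (q * e) hqe nx ux
    have hC0 : ∀ a, C' a ≠ 0 ↔ C a ≠ 0 := fun a => map_ne_zero_iff _ (ρ g).injective
    have oC : ∀ a, C a ≠ 0 → P.ord (C' a) = P.ord (C a) := fun a h0 =>
      (hXx _ (hc _ _) h0).2 (ρ g) _ _ na ax
    have hC : ∀ a, C a = 0 ∨ ((q * e : ℕ) : ℤ) ∣ P.ord (C a) := fun a => by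
      by_cases h0 : C a = 0
      · exact Or.inl h0
      · exact Or.inr (hXx _ (hc _ _) h0).1
    have hC' : ∀ a, C' a = 0 ∨ ((q * e : ℕ) : ℤ) ∣ P.ord (C' a) := fun a => by
      by_cases h0 : C a = 0
      · left
        simp only [C']
        simp only [C] at h0
        rw [h0, map_zero]
      · right
        rw [oC a h0]
        exact (hXx _ (hc _ _) h0).1
    have hex : ∃ a, C a ≠ 0 := by
      by_contra hcon
      push Not at hcon
      apply hz
      rw [hz1]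
      exact sum_eq_zero fun a _ => by rw [hcon a, zero_mul]
    have hex' : ∃ a, C' a ≠ 0 := by
      obtain ⟨a, ha⟩ := hex
      exact ⟨a, (hC0 a).2 ha⟩
    obtain ⟨-, a, ha0, ha1, ha2⟩ := hVEC k L _ P (q * e) E C hqe hE
      (fun i j hij => by rw [oE, oE]; exact unf_distinct hq2 heq i j hij) hC hex
    obtain ⟨-, b, hb0, hb1, hb2⟩ := hVEC k L _ P (q * e) E' C' hqe hE'
      (fun i j hij => by rw [oE', oE']; exact unf_distinct hq2 heq i j hij) hC' hex'
    have key : ∀ a, C a ≠ 0 → P.ord (C' a * E' a) = P.ord (C a * E a) := fun a h0 => by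
      rw [P.ord_mul _ _ ((hC0 a).2 h0) (hE' a), P.ord_mul _ _ h0 (hE a), oE, oE', oC a h0]
    rw [hz2, hb1, hz1, ha1]
    have hb0' := (hC0 b).1 hb0
    apply le_antisymm
    · rw [← key a ha0]
      exact hb2 a ((hC0 a).2 ha0)
    · rw [key b hb0']
      exact ha2 b hb0'

end Pool.CND
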